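import Pool.Agent.Lib.MP_28303a_al.TW.Graph

/-! # FINA: the path condition implies the abstract condition -/

set_option autoImplicit false
set_option linter.unusedSectionVars false

namespace Pool.Agent.NegK.TW.H70

universe u v

section

variable {Γ : Type u} [Group Γ]

theorem rankOK_mono {P Q : Subgroup Γ → Prop} {hyp hyp' : Γ → Prop} {F F' : Set (Subgroup Γ)}
    {M : ℕ} {ρ : Subgroup Γ → ℕ} (h : RankOK P Q hyp F M ρ) (hF : F' ⊆ F)
    (hh : ∀ g, hyp' g → hyp g) : RankOK P Q hyp' F' M ρ where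
  le S hS := h.le S (hF hS)
  coh S hS := h.coh S (hF hS)
  mono S hS S' hS' := h.mono S (hF hS) S' (hF hS')
  strict S hS S' hS' := h.strict S (hF hS) S' (hF hS')
  nil S hS h0 g hg := h.nil S (hF hS) h0 g (hh g hg)

variable {V E : Type u} [MulAction Γ V] [MulAction Γ E] {T : OTree Γ V E} {G : SimpleGraph V}

theorem adj_tgt_src (hT : T.Of G) (η : Dt E) : G.Adj (T.tgt η) (T.src η) := by
  obtain ⟨e, b⟩ := η
  cases b
  · exact hT.adj e
  · exact (hT.adj e).symm

theorem dt_eq (hT : T.Of G) {η η' : Dt E} (h1 : T.tgt η = T.tgt η') (h2 : T.src η = T.src η')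
    (hb : η.b = η'.b) : η = η' := by
  obtain ⟨e, b⟩ := η
  obtain ⟨e', b'⟩ := η'
  have hb' : b = b' := hb
  subst hb'
  cases b
  · exact Dt.ext (hT.inj e e' h1 h2) rfl
  · exact Dt.ext (hT.inj e e' h2 h1) rfl

theorem stab_dt (hT : T.Of G) (η : Dt E) : MulAction.stabilizer Γ η =
    MulAction.stabilizer Γ (T.tgt η) ⊓ MulAction.stabilizer Γ (T.src η) := by
  ext g
  rw [Subgroup.mem_inf, MulAction.mem_stabilizer_iff, MulAction.mem_stabilizer_iff,
    MulAction.mem_stabilizer_iff]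
  constructor
  · intro h
    rw [← T.tgt_smul, ← T.src_smul, h]
    exact ⟨rfl, rfl⟩
  · rintro ⟨h1, h2⟩
    exact dt_eq hT ((T.tgt_smul g η).trans h1) ((T.src_smul g η).trans h2) rfl

/-- Two consecutive oriented edges of a reduced path are not opposite. -/
theorem not_rev (hT : T.Of G) {η η' : Dt E} (h : T.prev.R η η') : T.tgt η ≠ T.src η' := by
  obtain ⟨h1, h2⟩ := h
  obtain ⟨e, b⟩ := η
  obtain ⟨e', b'⟩ := η'
  intro h3
  cases b
  · cases b'
    · exact hT.anti e' e h1 h3.symm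
    · exact h2 ⟨hT.inj e' e h3.symm h1, by simp⟩
  · cases b'
    · exact h2 ⟨hT.inj e' e h1 h3.symm, by simp⟩
    · exact hT.anti e e' h1.symm h3

end

/-- FINA. -/
theorem fina (h1 : HypStatement.{u}) : FinaStatement.{u} := by
  intro k Γ V E _ _ _ _ G T hG hT hP ι _ ε K hfg hK
  obtain ⟨K', m, M, ρ, hK', hr⟩ := hP ι (fun i => T.tgt (ε i)) (fun i => T.src (ε i)) K
    (fun i => adj_tgt_src hT (ε i)) hfg (fun i => by rw [← stab_dt hT]; exact hK i)
  refine ⟨K', m, M, ρ, fun i => ⟨(hK' i).1, by rw [stab_dt hT]; exact (hK' i).2⟩,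
    rankOK_mono hr ?_ ?_⟩
  · rintro S ⟨l, hl, η, i, g, hη, hg, rfl⟩
    let v : ℕ → V := fun j => Nat.rec (T.tgt (η 0)) (fun j _ => T.src (η j)) j
    have hv : ∀ j, v (j + 1) = T.src (η j) := fun j => rfl
    have hv' : ∀ j ≤ l, v j = T.tgt (η j) := by
      intro j hj
      cases j with
      | zero => rfl
      | succ j => rw [hv]; exact (hη j hj).1.symm
    refine ⟨l, hl, v, i, g, fun j hj => ?_, fun j hj => ?_, fun j hj => ⟨?_, ?_⟩, rfl⟩
    · rw [hv, hv' j hj]
      exact adj_tgt_src hT _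
    · rw [hv' j hj.le, hv (j + 1)]
      exact not_rev hT (hη j hj)
    · rw [hv' j hj, ← hg j hj, T.tgt_smul]
    · rw [hv, ← hg j hj, T.src_smul]
  · rintro g ⟨η, hη⟩
    exact h1 Γ V E G T hG hT g η hη

end Pool.Agent.NegK.TW.H70
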