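import Pool.Agent.Lib.MP_28303a_al.TW.Graph

/-! # RET: retracts -/

set_option autoImplicit false
set_option linter.unusedSectionVars false

namespace Pool.Agent.NegK.TW.H70

universe u v

open MonoidAlgebra

section

variable {k k' G H : Type u} [Ring k] [Ring k'] [Group G] [Group H]

theorem mdr_cmap (f : k →+* k') (r : G →* H) :
    (mdr k' r).comp (cmap G f) = (cmap H f).comp (mdr k r) := by
  refine MonoidAlgebra.ringHom_ext (fun x => ?_) (fun g => ?_)
  · simp only [RingHom.comp_apply, cmap_single, mdr_single]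
  · simp only [RingHom.comp_apply, cmap_single, mdr_single]

theorem surj_ret (f : k →+* k') (i : H →* G) (r : G →* H) (hr : ∀ h, r (i h) = h)
    (h : Function.Surjective (K0.map (cmap G f))) : Function.Surjective (K0.map (cmap H f)) := by
  intro z
  obtain ⟨y, hy⟩ := h (K0.map (mdr k' i) z)
  refine ⟨K0.map (mdr k r) y, ?_⟩
  have e1 : r.comp i = MonoidHom.id H := MonoidHom.ext hr
  have e2 : K0Fun.hom (mdr k' r) (K0Fun.hom (mdr k' i) z) = z := by
    rw [← AddMonoidHom.comp_apply, ← K0Fun.hom_comp, mdr_comp_mdr, e1, mdr_id, K0Fun.hom_id]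
    rfl
  have e3 : K0Fun.hom (cmap H f) (K0Fun.hom (mdr k r) y) =
      K0Fun.hom (mdr k' r) (K0Fun.hom (cmap G f) y) := by
    rw [← AddMonoidHom.comp_apply, ← AddMonoidHom.comp_apply, ← K0Fun.hom_comp,
      ← K0Fun.hom_comp, mdr_cmap]
  refine Eq.trans e3 (Eq.trans ?_ e2)
  exact congrArg (K0Fun.hom (mdr k' r)) hy

end

/-- RET. -/
theorem ret : RetStatement.{u} := by
  intro G H _ _ i r hr hG R _ hR
  exact ⟨surj_ret _ i r hr (hG R hR).1, surj_ret _ i r hr (hG R hR).2⟩

end Pool.Agent.NegK.TW.H70
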